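import Pool.Agent.P.MP_824f38_ag.H.Final

/-! Every table that satisfies the known necessary conditions is the vanishing table of a pure
`n`-dimensional affine variety. -/

namespace Pool.Agent.Old.MP_824f38_ag.AllTables

open Pool.Agent.P.MP_824f38_ag

theorem result (n : ℕ) (T : Fin (n + 1) → Fin (n + 1) → Prop)
    (h0 : ∀ p, T p 0)
    (h1 : ∀ p q, T p q → (p : ℕ) + q ≤ n)
    (h2 : ∀ p q, T p q → 1 ≤ (q : ℕ) → (p : ℕ) + q = n →
      ∃ p' q' : Fin (n + 1), p' < p ∧ (p' : ℕ) + q' + 1 = n ∧ T p' q') :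
    ∃ (R : Type) (_ : CommRing R) (_ : Algebra ℂ R), Algebra.FiniteType ℂ R ∧ IsReduced R ∧
      ringKrullDim R = n ∧ (∀ P ∈ minimalPrimes R, ringKrullDim (R ⧸ P) = n) ∧
      ∃ X : Hyper R, X.Descent ∧ ∀ p q : Fin (n + 1), X.HNonzero p q ↔ T p q := by
  obtain ⟨R, i1, i2, k1, k2, k3, k4, X, k5, k6, k7⟩ := DB.exists_table n
    (fun p q => ∃ a b : Fin (n + 1), (a : ℕ) = p ∧ (b : ℕ) = q + 1 ∧ T a b)
    (by
      rintro p q ⟨a, b, rfl, hb, h⟩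
      have := h1 a b h
      omega)
    (by
      rintro p q ⟨a, b, rfl, hb, h⟩ hn
      obtain ⟨p', q', hp, hq, h'⟩ := h2 a b h (by omega) (by omega)
      have : (p' : ℕ) < a := hp
      exact ⟨p', q' - 1, hp, by omega, p', q', rfl, by omega, h'⟩)
  refine ⟨R, i1, i2, k1, k2, k3, k4, X, k5, fun p q => ?_⟩
  obtain ⟨_ | q, hq⟩ := q
  · exact ⟨fun _ => h0 p, fun _ => k6 p (Nat.le_of_lt_succ p.2)⟩
  · refine (k7 p q).trans ⟨?_, fun h => ⟨p, _, rfl, rfl, h⟩⟩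
    rintro ⟨a, b, ha, hb, h⟩
    rwa [Fin.ext ha, show b = ⟨q + 1, hq⟩ from Fin.ext hb] at h

end Pool.Agent.Old.MP_824f38_ag.AllTables
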