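import Pool.Agent.P.MP_824f38_ag.Pad

/-! Every vanishing table supported in the columns `q ≤ 1` that satisfies the known necessary
conditions is the vanishing table of a pure `n`-dimensional affine variety. -/

namespace Pool.Agent.Old.MP_824f38_ag.TwoColumns

open Pool.Agent.P.MP_824f38_ag

theorem result (n : ℕ) (T : Fin (n + 1) → Fin (n + 1) → Prop)
    (h0 : ∀ p, T p 0)
    (h1 : ∀ p q, T p q → (q : ℕ) ≤ 1 ∧ (p : ℕ) + q ≤ n)
    (h2 : ∀ p q, T p q → (q : ℕ) = 1 → (p : ℕ) + 1 = n →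
      ∃ p' : Fin (n + 1), (p' : ℕ) + 2 = n ∧ T p' q) :
    ∃ (R : Type) (_ : CommRing R) (_ : Algebra ℂ R), Algebra.FiniteType ℂ R ∧ IsReduced R ∧
      ringKrullDim R = n ∧ (∀ P ∈ minimalPrimes R, ringKrullDim (R ⧸ P) = n) ∧
      ∃ X : SemiSimplicial R, X.Descent ∧ ∀ p q : Fin (n + 1), X.HNonzero p q ↔ T p q := by
  obtain ⟨M, hI, ⟨K, hK⟩, hc, ⟨v, hv⟩, hz, hS⟩ := exists_model n
    (fun p => ∃ a b : Fin (n + 1), (a : ℕ) = p ∧ (b : ℕ) = 1 ∧ T a b)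
    (by
      rintro p ⟨a, b, rfl, hb, h⟩
      have := (h1 a b h).2
      omega)
    (by
      rintro p ⟨a, b, rfl, hb, h⟩ hn
      obtain ⟨p', hp', h'⟩ := h2 a b h hb hn
      exact ⟨p', by omega, p', b, rfl, hb, h'⟩)
  refine ⟨M.R, inferInstance, inferInstance, GModel.finiteType_R hI, GModel.isReduced_R,
    le_antisymm (GModel.dim_le hI n fun v => (hc v).le) (hc v ▸ GModel.le_dim v hv),
    GModel.pure_dim hI v hc, GModel.res hI, GModel.descent hI hK, fun p q => ?_⟩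
  obtain ⟨_ | _ | q, hq⟩ := q
  · exact ⟨fun _ => h0 p, fun _ => hz p (Nat.le_of_lt_succ p.2)⟩
  · refine (GModel.h_one hI p).trans ((hS p).trans ⟨?_, fun h => ⟨p, _, rfl, rfl, h⟩⟩)
    rintro ⟨a, b, ha, hb, h⟩
    rwa [Fin.ext ha, show b = ⟨0 + 1, hq⟩ from Fin.ext hb] at h
  · exact ⟨fun h => absurd h (GModel.h_two hI p q), fun h => absurd (h1 _ _ h).1 (by simp)⟩

end Pool.Agent.Old.MP_824f38_ag.TwoColumns
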